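import Pool.Agent.Helper18.LD6.FO
import Pool.Agent.Helper78.LD6.CORE
import Pool.Agent.Helper68.LD6.TTB1
import Pool.Agent.Helper47.LD6.TTB2

/-!
# LD6, block FO, final form
-/

set_option autoImplicit false

namespace Pool.Agent.Helper18.LD6

open Set MeasureTheory
open Pool.Agent.Helper41.LD6
open Pool.Agent.Helper78.LD6 (core)
open Pool.Agent.Helper68.LD6 (Tt_two Th_ge)
open Pool.Agent.Helper47.LD6 (Tt_bound V_mono)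

variable {F : Pm} {K : ℕ} {a₀ ℓst a ℓ x : ℝ} {q q' : Fin (F.d + 1) → ℕ} {j j' : ℕ}

theorem st_T1 (hF : F.Ok) (hK : F.Big K) (S : F.St K a₀ ℓst) : 1 ≤ Tt F.A₀ (F.Th K) a₀ ℓst := by
  have h1 : ℓst ≤ 1 := by
    have h2 := S.sm
    have h3 : (1 : ℝ) ≤ 2 ^ (K ^ 4) := one_le_pow₀ (by norm_num)
    nlinarith [S.pos]
  have := Tt_two hF S.pos h1 (Th_ge hK) S.lo
  omega

theorem core' (hF : F.Ok) (hK : F.Big K) (S : F.St K a₀ ℓst) (hℓ : 0 < ℓ) (h1 : a₀ ≤ a) (h2 : a + ℓ ≤ a₀ + ℓst) {p p' ϑ : ℝ}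
    (hp : a ≤ p) (hpq : p ≤ p') (hq : p' ≤ a + ℓ) (hϑ : 0 < ϑ) :
    Core K F.t (fun τ => (1 ≤ τ ∧ τ ≤ 2 ^ (3 * K)) ∧ ϑ ≤ Vf F.A₀ τ a * ℓ) (Uf F.A₀ F.c) p p'
      ((1 / 2) ^ (11 * F.E K) * (p' - p) + 2 ^ (F.C₀ * F.E K) * ℓ / ϑ) := by
  intro I hI hok f hf
  exact core hF hK S hℓ h1 h2 hp hpq hq I hI (fun τ hτ => (hok τ hτ).1) hϑ (fun τ hτ => (hok τ hτ).2) f hf

theorem fast_one (hF : F.Ok) (hK : F.Big K) (S : F.St K a₀ ℓst) (hℓ : 0 < ℓ) (h1 : a₀ ≤ a) (h2 : a + ℓ ≤ a₀ + ℓst) {p p' ϑ : ℝ}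
    (hp : a ≤ p) (hpq : p ≤ p') (hq : p' ≤ a + ℓ) (hϑ : 0 < ϑ) (hV : ϑ ≤ F.V K a₀ ℓst j a * ℓ) (hqs : q ∈ Qs F.d K) :
    |∫ x in p..p', F.G K a₀ ℓst q j x| ≤ (1 / 2) ^ (11 * F.E K) * (p' - p) + 2 ^ (F.C₀ * F.E K) * ℓ / ϑ := by
  have h0 : 0 ≤ p' - p := by linarith
  exact fast_one_of (by positivity) (Tt_bound hF hK S) (st_T1 hF hK S) (fun h => V_mono hF hK S h1 h) hℓ.le
    (core' hF hK S hℓ h1 h2 hp hpq hq hϑ) hV hqs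

open Classical in
theorem fast_two (hF : F.Ok) (hK : F.Big K) (S : F.St K a₀ ℓst) (hℓ : 0 < ℓ) (h1 : a₀ ≤ a) (h2 : a + ℓ ≤ a₀ + ℓst) {ϑ : ℝ}
    (hϑ : 0 < ϑ) (hV : ϑ ≤ F.V K a₀ ℓst j a * ℓ) (hV' : ϑ ≤ F.V K a₀ ℓst j' a * ℓ) (hqs : q ∈ Qs F.d K) (hqs' : q' ∈ Qs F.d K)
    (hj : j < 2 ^ (2 * K)) (hj' : j' < 2 ^ (2 * K)) :
    |(∫ x in a..(a + ℓ), F.G K a₀ ℓst q j x * F.G K a₀ ℓst q' j' x) - ℓ * (if j = j' ∧ q = q' then vq q else 0)| ≤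
      ((1 / 2) ^ (11 * F.E K) + 2 ^ (F.C₀ * F.E K) / ϑ) * ℓ := by
  refine (fast_two_of (Tt_bound hF hK S) (st_T1 hF hK S) (fun h => V_mono hF hK S h1 h) hℓ.le
    (core' hF hK S hℓ h1 h2 (le_refl _) (by linarith) (le_refl _) hϑ) hV hV' hqs hqs' hj hj').trans (le_of_eq ?_)
  rw [add_sub_cancel_left]
  ring

end Pool.Agent.Helper18.LD6
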