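import Pool.Agent.Helper41.LD6.Defs

/-!
# LD6, block T4: grid functions from boxes
-/

set_option autoImplicit false

namespace Pool.Agent.Helper18.LD6

open Set MeasureTheory
open Pool.Agent.Helper41.LD6 (Gr)

/-- the indicator of the cell `c` -/
noncomputable def cel (N₀ c : ℕ) (y : ℝ) : ℝ :=
  if (c : ℝ) / N₀ ≤ Int.fract y ∧ Int.fract y < ((c : ℝ) + 1) / N₀ then 1 else 0

theorem cel_meas (N₀ c : ℕ) : Measurable (cel N₀ c) := by
  unfold cel
  refine Measurable.ite ?_ measurable_const measurable_const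
  exact (measurableSet_le measurable_const measurable_fract).inter (measurableSet_lt measurable_fract measurable_const)

theorem cel_abs (N₀ c : ℕ) (y : ℝ) : |cel N₀ c y| ≤ 1 := by
  unfold cel
  split_ifs <;> simp

theorem gr_sum {N₀ : ℕ} (hN₀ : 1 ≤ N₀) {f : ℝ → ℝ} (hf : Gr N₀ f) (y : ℝ) :
    f y = ∑ c ∈ Finset.range N₀, f (c / N₀) * cel N₀ c y := by
  have hN : (0 : ℝ) < N₀ := by exact_mod_cast hN₀
  have h0 := Int.fract_nonneg y
  have h1 := Int.fract_lt_one y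
  obtain ⟨c, hc⟩ : ∃ c : ℕ, (c : ℤ) = ⌊(N₀ : ℝ) * Int.fract y⌋ :=
    ⟨_, Int.toNat_of_nonneg (Int.floor_nonneg.2 (by positivity))⟩
  have h2 : (c : ℝ) ≤ N₀ * Int.fract y := by
    have := Int.floor_le ((N₀ : ℝ) * Int.fract y)
    rw [← hc] at this
    exact_mod_cast this
  have h3 : (N₀ : ℝ) * Int.fract y < c + 1 := by
    have := Int.lt_floor_add_one ((N₀ : ℝ) * Int.fract y)
    rw [← hc] at this
    exact_mod_cast this
  have h4 : c < N₀ := by
    have : (c : ℝ) < N₀ := lt_of_le_of_lt h2 (by nlinarith)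
    exact_mod_cast this
  have h5 : f y = f (c / N₀) := by
    have e1 : f y = f (Int.fract y) := by
      have := hf.per.sub_int_mul_eq ⌊y⌋ (x := y)
      rw [mul_one] at this
      rw [← this]
      rfl
    rw [e1]
    apply hf.grid
    rw [← hc, mul_div_cancel₀ _ hN.ne', Int.floor_natCast]
  rw [Finset.sum_eq_single c]
  · have h6 : cel N₀ c y = 1 := by
      unfold cel
      rw [if_pos ⟨by rw [div_le_iff₀ hN]; linarith, by rw [lt_div_iff₀ hN]; linarith⟩]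
    rw [h6, mul_one, h5]
  · intro c' _ hne
    have h6 : cel N₀ c' y = 0 := by
      unfold cel
      rw [if_neg]
      rintro ⟨h7, h8⟩
      rw [div_le_iff₀ hN] at h7
      rw [lt_div_iff₀ hN] at h8
      apply hne
      have h9 : (c' : ℝ) < c + 1 := by linarith
      have h10 : (c : ℝ) < c' + 1 := by linarith
      have h11 : c' < c + 1 := by exact_mod_cast h9
      have h12 : c < c' + 1 := by exact_mod_cast h10
      omega
    rw [h6, mul_zero]
  · intro h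
    exact absurd (Finset.mem_range.2 h4) h

theorem gr_int {N₀ : ℕ} (hN₀ : 1 ≤ N₀) {f : ℝ → ℝ} (hf : Gr N₀ f) :
    ∫ t in (0 : ℝ)..1, f t = ∑ c ∈ Finset.range N₀, f (c / N₀) * (1 / N₀) := by
  have hN : (0 : ℝ) < N₀ := by exact_mod_cast hN₀
  have hii : ∀ a b : ℝ, IntervalIntegrable f volume a b := fun a b =>
    (intervalIntegrable_const (c := (1 : ℝ))).mono_fun' hf.meas.aestronglyMeasurable (ae_of_all _ fun x => hf.bdd x)
  have h1 := intervalIntegral.sum_integral_adjacent_intervals (f := f) (μ := volume) (a := fun k : ℕ => (k : ℝ) / N₀)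
    (n := N₀) (fun k _ => hii _ _)
  simp only [Nat.cast_zero, zero_div, div_self hN.ne'] at h1
  rw [← h1]
  refine Finset.sum_congr rfl fun c _ => ?_
  have h2 : (c : ℝ) / N₀ ≤ ((c + 1 : ℕ) : ℝ) / N₀ := by
    apply div_le_div_of_nonneg_right _ hN.le
    push_cast
    linarith
  have h3 : ∫ x in (c : ℝ) / N₀..((c + 1 : ℕ) : ℝ) / N₀, f x = ∫ x in (c : ℝ) / N₀..((c + 1 : ℕ) : ℝ) / N₀, f (c / N₀) := by
    apply intervalIntegral.integral_congr_ae
    have h4 : ∀ᵐ x : ℝ, x ≠ ((c + 1 : ℕ) : ℝ) / N₀ := by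
      rw [ae_iff]
      simp
    filter_upwards [h4] with x hx hx2
    rw [uIoc_of_le h2] at hx2
    have h5 : x < ((c + 1 : ℕ) : ℝ) / N₀ := lt_of_le_of_ne hx2.2 hx
    rw [lt_div_iff₀ hN] at h5
    have h6 := hx2.1
    rw [div_lt_iff₀ hN] at h6
    apply hf.grid
    rw [mul_div_cancel₀ _ hN.ne', Int.floor_natCast, Int.floor_eq_iff]
    push_cast at h5 ⊢
    constructor <;> linarith
  rw [h3, intervalIntegral.integral_const, smul_eq_mul]
  push_cast
  field_simp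
  ring

open Classical in
/-- T4 from a bound `E₀` for boxes -/
theorem box_grid_of {ι : Type} (I : Finset ι) (u : ι → ℝ → ℝ) {p q E₀ : ℝ} (hu : ∀ k ∈ I, Measurable (u k))
    {N₀ : ℕ} (hN₀ : 1 ≤ N₀) (f : ι → ℝ → ℝ) (hf : ∀ k ∈ I, Gr N₀ (f k))
    (hbox : ∀ α γ : ι → ℝ, (∀ k ∈ I, 0 ≤ α k ∧ α k ≤ γ k ∧ γ k ≤ 1) →
      |(∫ x in p..q, ∏ k ∈ I, if α k ≤ Int.fract (u k x) ∧ Int.fract (u k x) < γ k then (1 : ℝ) else 0) -
        (q - p) * ∏ k ∈ I, (γ k - α k)| ≤ E₀) :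
    |(∫ x in p..q, ∏ k ∈ I, f k (u k x)) - (q - p) * ∏ k ∈ I, ∫ t in (0 : ℝ)..1, f k t| ≤ (N₀ : ℝ) ^ I.card * E₀ := by
  have hN : (0 : ℝ) < N₀ := by exact_mod_cast hN₀
  -- the expansion
  have e1 : ∀ x, ∏ k ∈ I, f k (u k x) = ∑ c ∈ Fintype.piFinset (fun _ : I => Finset.range N₀),
      (∏ k : I, f k (c k / N₀)) * ∏ k : I, cel N₀ (c k) (u k x) := by
    intro x
    rw [← Finset.prod_coe_sort I (fun k => f k (u k x))]
    have h1 : ∏ k : I, f k (u k x) = ∏ k : I, ∑ c ∈ Finset.range N₀, f k (c / N₀) * cel N₀ c (u k x) :=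
      Finset.prod_congr rfl fun k _ => gr_sum hN₀ (hf k k.2) _
    rw [h1, Finset.prod_univ_sum]
    refine Finset.sum_congr rfl fun c _ => ?_
    rw [Finset.prod_mul_distrib]
  have e2 : ∏ k ∈ I, ∫ t in (0 : ℝ)..1, f k t = ∑ c ∈ Fintype.piFinset (fun _ : I => Finset.range N₀),
      (∏ k : I, f k (c k / N₀)) * ∏ _k : I, (1 / N₀ : ℝ) := by
    rw [← Finset.prod_coe_sort I (fun k => ∫ t in (0 : ℝ)..1, f k t)]
    have h1 : ∏ k : I, ∫ t in (0 : ℝ)..1, f k t = ∏ k : I, ∑ c ∈ Finset.range N₀, f k (c / N₀) * (1 / N₀) :=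
      Finset.prod_congr rfl fun k _ => gr_int hN₀ (hf k k.2)
    rw [h1, Finset.prod_univ_sum]
    refine Finset.sum_congr rfl fun c _ => ?_
    rw [Finset.prod_mul_distrib]
  have hm : ∀ c : I → ℕ, Measurable fun x => ∏ k : I, cel N₀ (c k) (u k x) := fun c =>
    Finset.measurable_prod _ fun k _ => (cel_meas _ _).comp (hu k k.2)
  have hb : ∀ (c : I → ℕ) (x : ℝ), |∏ k : I, cel N₀ (c k) (u k x)| ≤ 1 := fun c x => by
    rw [Finset.abs_prod]
    exact Finset.prod_le_one (fun _ _ => abs_nonneg _) fun _ _ => cel_abs _ _ _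
  have hii : ∀ c : I → ℕ, IntervalIntegrable (fun x => ∏ k : I, cel N₀ (c k) (u k x)) volume p q := fun c =>
    (intervalIntegrable_const (c := (1 : ℝ))).mono_fun' (hm c).aestronglyMeasurable (ae_of_all _ fun x => hb c x)
  have e3 : ∫ x in p..q, ∏ k ∈ I, f k (u k x) = ∑ c ∈ Fintype.piFinset (fun _ : I => Finset.range N₀),
      (∏ k : I, f k (c k / N₀)) * ∫ x in p..q, ∏ k : I, cel N₀ (c k) (u k x) := by
    simp only [e1]
    rw [intervalIntegral.integral_finsetSum fun c _ => (hii c).const_mul _]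
    refine Finset.sum_congr rfl fun c _ => ?_
    rw [intervalIntegral.integral_const_mul]
  rw [e3, e2, Finset.mul_sum, ← Finset.sum_sub_distrib]
  have hcard : ((Fintype.piFinset (fun _ : I => Finset.range N₀)).card : ℝ) = (N₀ : ℝ) ^ I.card := by
    rw [Fintype.card_piFinset]
    simp
  rw [← hcard, ← nsmul_eq_mul]
  refine (Finset.abs_sum_le_sum_abs _ _).trans (Finset.sum_le_card_nsmul _ _ _ fun c hc => ?_)
  have h1 : (∏ k : I, f k (c k / N₀)) * (∫ x in p..q, ∏ k : I, cel N₀ (c k) (u k x)) -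
      (q - p) * ((∏ k : I, f k (c k / N₀)) * ∏ _k : I, (1 / N₀ : ℝ)) =
      (∏ k : I, f k (c k / N₀)) * ((∫ x in p..q, ∏ k : I, cel N₀ (c k) (u k x)) - (q - p) * ∏ _k : I, (1 / N₀ : ℝ)) := by
    ring
  rw [h1, abs_mul]
  have h2 : |∏ k : I, f k (c k / N₀)| ≤ 1 := by
    rw [Finset.abs_prod]
    exact Finset.prod_le_one (fun _ _ => abs_nonneg _) fun k _ => (hf k k.2).bdd _
  have h3 : |(∫ x in p..q, ∏ k : I, cel N₀ (c k) (u k x)) - (q - p) * ∏ _k : I, (1 / N₀ : ℝ)| ≤ E₀ := by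
    let α : ι → ℝ := fun k => if hk : k ∈ I then (c ⟨k, hk⟩ : ℝ) / N₀ else 0
    let γ : ι → ℝ := fun k => if hk : k ∈ I then ((c ⟨k, hk⟩ : ℝ) + 1) / N₀ else 0
    have hα : ∀ k : I, α k = (c k : ℝ) / N₀ := fun k => dif_pos k.2
    have hγ : ∀ k : I, γ k = ((c k : ℝ) + 1) / N₀ := fun k => dif_pos k.2
    have h4 := hbox α γ fun k hk => by
      have h5 : c ⟨k, hk⟩ < N₀ := Finset.mem_range.1 (Fintype.mem_piFinset.1 hc ⟨k, hk⟩)
      have h6 : ((c ⟨k, hk⟩ : ℝ) + 1) ≤ N₀ := by exact_mod_cast h5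
      rw [hα ⟨k, hk⟩, hγ ⟨k, hk⟩]
      refine ⟨by positivity, div_le_div_of_nonneg_right (by linarith) hN.le, ?_⟩
      rw [div_le_one hN]
      exact h6
    have e4 : ∀ x, (∏ k ∈ I, if α k ≤ Int.fract (u k x) ∧ Int.fract (u k x) < γ k then (1 : ℝ) else 0) =
        ∏ k : I, cel N₀ (c k) (u k x) := by
      intro x
      rw [← Finset.prod_coe_sort I (fun k => if α k ≤ Int.fract (u k x) ∧ Int.fract (u k x) < γ k then (1 : ℝ) else 0)]
      refine Finset.prod_congr rfl fun k _ => ?_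
      rw [hα, hγ]
      rfl
    have e5 : ∏ k ∈ I, (γ k - α k) = ∏ _k : I, (1 / N₀ : ℝ) := by
      rw [← Finset.prod_coe_sort I (fun k => γ k - α k)]
      refine Finset.prod_congr rfl fun k _ => ?_
      rw [hα, hγ]
      field_simp
      ring
    rw [e5] at h4
    simp only [e4] at h4
    exact h4
  calc |∏ k : I, f k (c k / N₀)| * |(∫ x in p..q, ∏ k : I, cel N₀ (c k) (u k x)) - (q - p) * ∏ _k : I, (1 / N₀ : ℝ)|
      ≤ 1 * E₀ := mul_le_mul h2 h3 (abs_nonneg _) (by norm_num)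
    _ = E₀ := one_mul _

end Pool.Agent.Helper18.LD6
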