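import Pool.Agent.Helper41.LD6.Defs
import Pool.Agent.Helper17.LD6.H1

/-!
# LD6, block FO: one and two functionals, from the integrals of products of grid functions
-/

set_option autoImplicit false

namespace Pool.Agent.Helper18.LD6

open Set MeasureTheory
open Pool.Agent.Helper41.LD6
open Pool.Agent.Helper17.LD6 (hr_gr hr_orth hr_mean)

theorem gr_mul {N₀ : ℕ} {f g : ℝ → ℝ} (hf : Gr N₀ f) (hg : Gr N₀ g) : Gr N₀ (fun y => f y * g y) where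
  meas := hf.meas.mul hg.meas
  bdd := fun x => by
    rw [abs_mul]
    exact mul_le_one₀ (hf.bdd x) (abs_nonneg _) (hg.bdd x)
  per := fun x => by
    show f (x + 1) * g (x + 1) = f x * g x
    rw [hf.per x, hg.per x]
  grid := fun s t h => by
    show f s * g s = f t * g t
    rw [hf.grid s t h, hg.grid s t h]

theorem hr_zero (y : ℝ) : hr 0 y = 1 := by
  unfold hr
  rw [if_pos rfl]

theorem vr_zero : vr 0 = 1 := by
  unfold vr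
  simp

variable {d : ℕ}

/-- the times of a functional -/
def tms (d τ₀ : ℕ) : Finset ℕ := Finset.univ.image fun i : Fin (d + 1) => τ₀ + (i : ℕ)

/-- its factor at the time `τ` (number `0`, the constant, if there is none) -/
def nq (q : Fin (d + 1) → ℕ) (τ₀ τ : ℕ) : ℕ := if h : τ₀ ≤ τ ∧ τ - τ₀ < d + 1 then q ⟨τ - τ₀, h.2⟩ else 0

theorem tms_inj (τ₀ : ℕ) : Function.Injective fun i : Fin (d + 1) => τ₀ + (i : ℕ) := by
  intro i i' h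
  apply Fin.ext
  simpa using h

theorem tms_card (d τ₀ : ℕ) : (tms d τ₀).card = d + 1 := by
  unfold tms
  rw [Finset.card_image_of_injective _ (tms_inj τ₀), Finset.card_univ, Fintype.card_fin]

theorem mem_tms {τ₀ τ : ℕ} : τ ∈ tms d τ₀ ↔ τ₀ ≤ τ ∧ τ - τ₀ < d + 1 := by
  unfold tms
  rw [Finset.mem_image]
  constructor
  · rintro ⟨i, -, rfl⟩
    have := i.2
    omega
  · rintro ⟨h1, h2⟩
    exact ⟨⟨τ - τ₀, h2⟩, Finset.mem_univ _, by simp only; omega⟩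

theorem nq_add (q : Fin (d + 1) → ℕ) (τ₀ : ℕ) (i : Fin (d + 1)) : nq q τ₀ (τ₀ + i) = q i := by
  unfold nq
  have h : τ₀ ≤ τ₀ + (i : ℕ) ∧ τ₀ + (i : ℕ) - τ₀ < d + 1 := ⟨by omega, by have := i.2; omega⟩
  rw [dif_pos h]
  congr 1
  apply Fin.ext
  simp

theorem nq_out (q : Fin (d + 1) → ℕ) {τ₀ τ : ℕ} (h : τ ∉ tms d τ₀) : nq q τ₀ τ = 0 := by
  unfold nq
  rw [dif_neg (fun h' => h (mem_tms.2 h'))]

theorem nq_lt {K : ℕ} {q : Fin (d + 1) → ℕ} (hq : ∀ i, q i < 2 ^ K) (τ₀ τ : ℕ) : nq q τ₀ τ < 2 ^ K := by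
  unfold nq
  split_ifs with h
  · exact hq _
  · positivity

/-- a product over a larger set of times -/
theorem prod_tms (q : Fin (d + 1) → ℕ) (τ₀ : ℕ) (v : ℕ → ℝ) {I : Finset ℕ} (hI : tms d τ₀ ⊆ I) :
    ∏ τ ∈ I, hr (nq q τ₀ τ) (v τ) = ∏ i : Fin (d + 1), hr (q i) (v (τ₀ + i)) := by
  rw [← Finset.prod_subset hI (fun τ _ h => by rw [nq_out q h, hr_zero])]
  unfold tms
  rw [Finset.prod_image fun i _ i' _ h => tms_inj τ₀ h]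
  exact Finset.prod_congr rfl fun i _ => by rw [nq_add]

theorem Qs_lt {K : ℕ} {q : Fin (d + 1) → ℕ} (hq : q ∈ Qs d K) : ∀ i, q i < 2 ^ K := fun i =>
  Finset.mem_range.1 (Fintype.mem_piFinset.1 (Finset.mem_filter.1 hq).1 i)

theorem Qs_zero {K : ℕ} {q : Fin (d + 1) → ℕ} (hq : q ∈ Qs d K) : q 0 ≠ 0 := (Finset.mem_filter.1 hq).2

/-- `∫ x in p..p', ∏ f_τ (u_τ x)` is `(p' - p) ∏ ∫ f_τ` up to `δ`, for the sets of at most `t` times with `ok τ` -/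
def Core (K t : ℕ) (ok : ℕ → Prop) (u : ℕ → ℝ → ℝ) (p p' δ : ℝ) : Prop :=
  ∀ I : Finset ℕ, I.card ≤ t → (∀ τ ∈ I, ok τ) → ∀ f : ℕ → ℝ → ℝ, (∀ τ ∈ I, Gr (2 ^ K) (f τ)) →
    |(∫ x in p..p', ∏ τ ∈ I, f τ (u τ x)) - (p' - p) * ∏ τ ∈ I, ∫ s in (0 : ℝ)..1, f τ s| ≤ δ

theorem one_of {K t : ℕ} {ok : ℕ → Prop} {u : ℕ → ℝ → ℝ} {p p' δ : ℝ} (hc : Core K t ok u p p' δ) (ht : d + 1 ≤ t)
    {q : Fin (d + 1) → ℕ} (hq : q ∈ Qs d K) {τ₀ : ℕ} (h : ∀ i, i ≤ d → ok (τ₀ + i)) :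
    |∫ x in p..p', ∏ i : Fin (d + 1), hr (q i) (u (τ₀ + i) x)| ≤ δ := by
  have h1 := hc (tms d τ₀) (by rw [tms_card]; exact ht)
    (fun τ hτ => by
      obtain ⟨h2, h3⟩ := mem_tms.1 hτ
      have := h (τ - τ₀) (by omega)
      rwa [Nat.add_sub_cancel' h2] at this)
    (fun τ => hr (nq q τ₀ τ)) (fun τ _ => hr_gr (nq_lt (Qs_lt hq) _ _))
  simp only [prod_tms q τ₀ _ (Finset.Subset.refl _)] at h1
  have h2 : ∏ τ ∈ tms d τ₀, ∫ s in (0 : ℝ)..1, hr (nq q τ₀ τ) s = 0 := by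
    refine Finset.prod_eq_zero (i := τ₀) (mem_tms.2 ⟨le_refl _, by omega⟩) ?_
    have h3 : nq q τ₀ τ₀ = q 0 := by
      have := nq_add q τ₀ 0
      simpa using this
    rw [h3, hr_mean, if_neg (Qs_zero hq)]
  rwa [h2, mul_zero, sub_zero] at h1

open Classical in
theorem two_of {K t : ℕ} {ok : ℕ → Prop} {u : ℕ → ℝ → ℝ} {p p' δ : ℝ} (hc : Core K t ok u p p' δ) (ht : 2 * (d + 1) ≤ t)
    {q q' : Fin (d + 1) → ℕ} (hq : q ∈ Qs d K) (hq' : q' ∈ Qs d K) {τ₀ τ₁ : ℕ} (h : ∀ i, i ≤ d → ok (τ₀ + i))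
    (h' : ∀ i, i ≤ d → ok (τ₁ + i)) :
    |(∫ x in p..p', (∏ i : Fin (d + 1), hr (q i) (u (τ₀ + i) x)) * ∏ i : Fin (d + 1), hr (q' i) (u (τ₁ + i) x)) -
      (p' - p) * (if τ₀ = τ₁ ∧ q = q' then vq q else 0)| ≤ δ := by
  have hok : ∀ τ ∈ tms d τ₀ ∪ tms d τ₁, ok τ := by
    intro τ hτ
    rcases Finset.mem_union.1 hτ with h1 | h1
    · obtain ⟨h2, h3⟩ := mem_tms.1 h1
      have := h (τ - τ₀) (by omega)
      rwa [Nat.add_sub_cancel' h2] at this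
    · obtain ⟨h2, h3⟩ := mem_tms.1 h1
      have := h' (τ - τ₁) (by omega)
      rwa [Nat.add_sub_cancel' h2] at this
  have h1 := hc (tms d τ₀ ∪ tms d τ₁) ((Finset.card_union_le _ _).trans (by rw [tms_card, tms_card]; omega)) hok
    (fun τ y => hr (nq q τ₀ τ) y * hr (nq q' τ₁ τ) y)
    (fun τ _ => gr_mul (hr_gr (nq_lt (Qs_lt hq) _ _)) (hr_gr (nq_lt (Qs_lt hq') _ _)))
  simp only [Finset.prod_mul_distrib, prod_tms q τ₀ _ Finset.subset_union_left,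
    prod_tms q' τ₁ _ Finset.subset_union_right] at h1
  have h2 : ∏ τ ∈ tms d τ₀ ∪ tms d τ₁, ∫ s in (0 : ℝ)..1, hr (nq q τ₀ τ) s * hr (nq q' τ₁ τ) s =
      if τ₀ = τ₁ ∧ q = q' then vq q else 0 := by
    simp only [hr_orth]
    rcases lt_trichotomy τ₀ τ₁ with hlt | heq | hgt
    · rw [if_neg (fun h3 => hlt.ne h3.1)]
      refine Finset.prod_eq_zero (i := τ₀) (Finset.mem_union_left _ (mem_tms.2 ⟨le_refl _, by omega⟩)) ?_
      have h3 : nq q τ₀ τ₀ = q 0 := by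
        have := nq_add q τ₀ 0
        simpa using this
      have h4 : nq q' τ₁ τ₀ = 0 := nq_out q' (fun h5 => by have := (mem_tms.1 h5).1; omega)
      rw [h3, h4, if_neg (Qs_zero hq)]
    · subst heq
      rw [Finset.union_self]
      have h3 : ∏ τ ∈ tms d τ₀, (if nq q τ₀ τ = nq q' τ₀ τ then vr (nq q τ₀ τ) else 0) =
          ∏ i : Fin (d + 1), (if q i = q' i then vr (q i) else 0) := by
        unfold tms
        rw [Finset.prod_image fun i _ i' _ h => tms_inj τ₀ h]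
        exact Finset.prod_congr rfl fun i _ => by rw [nq_add, nq_add]
      rw [h3]
      by_cases hqq : q = q'
      · subst hqq
        simp [vq]
      · rw [if_neg (fun h4 => hqq h4.2)]
        obtain ⟨i, hi⟩ := Function.ne_iff.1 hqq
        exact Finset.prod_eq_zero (i := i) (Finset.mem_univ _) (if_neg hi)
    · rw [if_neg (fun h3 => hgt.ne' h3.1)]
      refine Finset.prod_eq_zero (i := τ₁) (Finset.mem_union_right _ (mem_tms.2 ⟨le_refl _, by omega⟩)) ?_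
      have h3 : nq q' τ₁ τ₁ = q' 0 := by
        have := nq_add q' τ₁ 0
        simpa using this
      have h4 : nq q τ₀ τ₁ = 0 := nq_out q (fun h5 => by have := (mem_tms.1 h5).1; omega)
      rw [h3, h4, if_neg (Qs_zero hq').symm]
  rwa [h2] at h1

variable {F : Pm} {K : ℕ} {a₀ ℓst a ℓ x : ℝ} {q q' : Fin (F.d + 1) → ℕ} {j j' : ℕ}

theorem fast_one_of {p p' ϑ δ : ℝ} (hδ : 0 ≤ δ)
    (hTb : Tt F.A₀ (F.Th K) a₀ ℓst + 2 ^ (2 * K) + F.d + 2 ≤ 2 ^ (3 * K)) (hT1 : 1 ≤ Tt F.A₀ (F.Th K) a₀ ℓst)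
    (hVm : ∀ {j n : ℕ}, j ≤ n → F.V K a₀ ℓst j a ≤ F.V K a₀ ℓst n a) (hℓ : 0 ≤ ℓ)
    (hcore : Core K F.t (fun τ => (1 ≤ τ ∧ τ ≤ 2 ^ (3 * K)) ∧ ϑ ≤ Vf F.A₀ τ a * ℓ) (Uf F.A₀ F.c) p p' δ)
    (hV : ϑ ≤ F.V K a₀ ℓst j a * ℓ) (hqs : q ∈ Qs F.d K) :
    |∫ x in p..p', F.G K a₀ ℓst q j x| ≤ δ := by
  by_cases hj : j < 2 ^ (2 * K)
  · have e : ∀ x, F.G K a₀ ℓst q j x = ∏ i : Fin (F.d + 1), hr (q i) (Uf F.A₀ F.c (Tt F.A₀ (F.Th K) a₀ ℓst + j + i) x) := by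
      intro x
      unfold Pm.G GQ Pm.U
      rw [if_pos hj]
      refine Finset.prod_congr rfl fun i _ => ?_
      rw [add_assoc]
    simp only [e]
    refine one_of hcore (by unfold Pm.t; omega) hqs fun i hi => ⟨⟨by omega, by omega⟩, ?_⟩
    have h1 := hVm (j := j) (n := j + i) (by omega)
    unfold Pm.V at h1 hV
    rw [← add_assoc] at h1
    exact hV.trans (mul_le_mul_of_nonneg_right h1 hℓ)
  · have e : ∀ x, F.G K a₀ ℓst q j x = 0 := by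
      intro x
      unfold Pm.G GQ
      rw [if_neg hj]
    simp only [e, intervalIntegral.integral_zero, abs_zero]
    exact hδ

open Classical in
theorem fast_two_of {ϑ δ : ℝ}
    (hTb : Tt F.A₀ (F.Th K) a₀ ℓst + 2 ^ (2 * K) + F.d + 2 ≤ 2 ^ (3 * K)) (hT1 : 1 ≤ Tt F.A₀ (F.Th K) a₀ ℓst)
    (hVm : ∀ {j n : ℕ}, j ≤ n → F.V K a₀ ℓst j a ≤ F.V K a₀ ℓst n a) (hℓ : 0 ≤ ℓ)
    (hcore : Core K F.t (fun τ => (1 ≤ τ ∧ τ ≤ 2 ^ (3 * K)) ∧ ϑ ≤ Vf F.A₀ τ a * ℓ) (Uf F.A₀ F.c) a (a + ℓ) δ)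
    (hV : ϑ ≤ F.V K a₀ ℓst j a * ℓ) (hV' : ϑ ≤ F.V K a₀ ℓst j' a * ℓ) (hqs : q ∈ Qs F.d K) (hqs' : q' ∈ Qs F.d K)
    (hj : j < 2 ^ (2 * K)) (hj' : j' < 2 ^ (2 * K)) :
    |(∫ x in a..(a + ℓ), F.G K a₀ ℓst q j x * F.G K a₀ ℓst q' j' x) - ℓ * (if j = j' ∧ q = q' then vq q else 0)| ≤ δ := by
  have e : ∀ (q : Fin (F.d + 1) → ℕ) (j : ℕ), j < 2 ^ (2 * K) → ∀ x, F.G K a₀ ℓst q j x =
      ∏ i : Fin (F.d + 1), hr (q i) (Uf F.A₀ F.c (Tt F.A₀ (F.Th K) a₀ ℓst + j + i) x) := by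
    intro q j hj x
    unfold Pm.G GQ Pm.U
    rw [if_pos hj]
    refine Finset.prod_congr rfl fun i _ => ?_
    rw [add_assoc]
  have hok : ∀ j : ℕ, j < 2 ^ (2 * K) → ϑ ≤ F.V K a₀ ℓst j a * ℓ → ∀ i, i ≤ F.d →
      (1 ≤ Tt F.A₀ (F.Th K) a₀ ℓst + j + i ∧ Tt F.A₀ (F.Th K) a₀ ℓst + j + i ≤ 2 ^ (3 * K)) ∧
      ϑ ≤ Vf F.A₀ (Tt F.A₀ (F.Th K) a₀ ℓst + j + i) a * ℓ := by
    intro j hj hV i hi
    refine ⟨⟨by omega, by omega⟩, ?_⟩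
    have h1 := hVm (j := j) (n := j + i) (by omega)
    unfold Pm.V at h1 hV
    rw [← add_assoc] at h1
    exact hV.trans (mul_le_mul_of_nonneg_right h1 hℓ)
  have h1 := two_of hcore (by unfold Pm.t; omega) hqs hqs' (hok j hj hV) (hok j' hj' hV')
  rw [add_sub_cancel_left] at h1
  simp only [← e q j hj, ← e q' j' hj'] at h1
  have e2 : (Tt F.A₀ (F.Th K) a₀ ℓst + j = Tt F.A₀ (F.Th K) a₀ ℓst + j' ∧ q = q') ↔ (j = j' ∧ q = q') := by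
    constructor
    · rintro ⟨h2, h3⟩
      exact ⟨by omega, h3⟩
    · rintro ⟨h2, h3⟩
      exact ⟨by omega, h3⟩
  simp only [e2] at h1
  exact h1

end Pool.Agent.Helper18.LD6
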